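import Mathlib

/-!
# A (3,2,1)-conjugate-orthogonal idempotent Latin square of order 12

The square was found with a SAT solver among the idempotent quasigroups which have the
automorphism `(0 1 2) (3 4 5) (6 7 8) (9 10 11)`.
-/

set_option autoImplicit false

namespace Pool.Agent.Results.MP_b1d8d5_co.OrderTwelve

/-- the quasigroup: row `a`, column `c` holds `a ∘ c` -/
def op : Fin 12 → Fin 12 → Fin 12 :=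
  ![![0, 3, 6, 7, 1, 9, 10, 8, 5, 11, 4, 2],
    ![7, 1, 4, 10, 8, 2, 3, 11, 6, 0, 9, 5],
    ![5, 8, 2, 0, 11, 6, 7, 4, 9, 3, 1, 10],
    ![4, 7, 11, 3, 2, 10, 5, 6, 0, 1, 8, 9],
    ![9, 5, 8, 11, 4, 0, 1, 3, 7, 10, 2, 6],
    ![6, 10, 3, 1, 9, 5, 8, 2, 4, 7, 11, 0],
    ![1, 9, 5, 8, 3, 11, 6, 10, 2, 4, 0, 7],
    ![3, 2, 10, 9, 6, 4, 0, 7, 11, 8, 5, 1],
    ![11, 4, 0, 5, 10, 7, 9, 1, 8, 2, 6, 3],
    ![8, 11, 1, 6, 0, 3, 2, 5, 10, 9, 7, 4],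
    ![2, 6, 9, 4, 7, 1, 11, 0, 3, 5, 10, 8],
    ![10, 0, 7, 2, 5, 8, 4, 9, 1, 6, 3, 11]]

/-- its (3,2,1)-conjugate: row `z`, column `y` holds the `x` with `x ∘ y = z` -/
def star : Fin 12 → Fin 12 → Fin 12 :=
  ![![0, 11, 8, 2, 9, 4, 7, 10, 3, 1, 6, 5],
    ![6, 1, 9, 5, 0, 10, 4, 8, 11, 3, 2, 7],
    ![10, 7, 2, 11, 3, 1, 9, 5, 6, 8, 4, 0],
    ![7, 0, 5, 3, 6, 9, 1, 4, 10, 2, 11, 8],
    ![3, 8, 1, 10, 4, 7, 11, 2, 5, 6, 0, 9],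
    ![2, 4, 6, 8, 11, 5, 3, 9, 0, 10, 7, 1],
    ![5, 10, 0, 9, 7, 2, 6, 3, 1, 11, 8, 4],
    ![1, 3, 11, 0, 10, 8, 2, 7, 4, 5, 9, 6],
    ![9, 2, 4, 6, 1, 11, 5, 0, 8, 7, 3, 10],
    ![4, 6, 10, 7, 5, 0, 8, 11, 2, 9, 1, 3],
    ![11, 5, 7, 1, 8, 3, 0, 6, 9, 4, 10, 2],
    ![8, 9, 3, 4, 2, 6, 10, 1, 7, 0, 5, 11]]

/-- row `e`, column `u` holds the `c` with `(e ∘ c) ∘ c = u` -/
def inv : Fin 12 → Fin 12 → Fin 12 :=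
  ![![0, 7, 10, 5, 8, 2, 9, 1, 4, 3, 11, 6],
    ![11, 1, 8, 0, 3, 6, 5, 10, 2, 7, 4, 9],
    ![6, 9, 2, 7, 1, 4, 0, 3, 11, 10, 8, 5],
    ![9, 5, 1, 3, 11, 8, 10, 2, 6, 0, 7, 4],
    ![2, 10, 3, 6, 4, 9, 7, 11, 0, 5, 1, 8],
    ![4, 0, 11, 10, 7, 5, 1, 8, 9, 6, 3, 2],
    ![7, 11, 4, 2, 10, 3, 6, 0, 5, 8, 9, 1],
    ![5, 8, 9, 4, 0, 11, 3, 7, 1, 2, 6, 10],
    ![10, 3, 6, 9, 5, 1, 2, 4, 8, 11, 0, 7],
    ![1, 4, 7, 8, 2, 10, 11, 6, 3, 9, 5, 0],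
    ![8, 2, 5, 11, 6, 0, 4, 9, 7, 1, 10, 3],
    ![3, 6, 0, 1, 9, 7, 8, 5, 10, 4, 2, 11]]

set_option maxRecDepth 100000 in
/-- **There is a (3,2,1)-COILS(12)**: an idempotent quasigroup of order 12 which is orthogonal to
its (3,2,1)-conjugate. -/
theorem result : ∃ op star : Fin 12 → Fin 12 → Fin 12,
    (∀ a b, ∃! x, op a x = b) ∧ (∀ a b, ∃! x, op x a = b) ∧ (∀ x, op x x = x) ∧
    (∀ x y z, star z y = x ↔ op x y = z) ∧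
    ¬ ∃ a b c d, a ≠ b ∧ c ≠ d ∧ op a c = op b d ∧ star a c = star b d := by
  have h1 : ∀ a b, ∃ x, op a x = b ∧ ∀ y, op a y = b → y = x := by decide +kernel
  have h2 : ∀ a b, ∃ x, op x a = b ∧ ∀ y, op y a = b → y = x := by decide +kernel
  have h3 : ∀ x, op x x = x := by decide +kernel
  have h4 : ∀ x y z, star z y = x ↔ op x y = z := by decide +kernel
  have h5 : ∀ a c, inv (star a c) (op a c) = c := by decide +kernel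
  refine ⟨op, star, h1, h2, h3, h4, ?_⟩
  rintro ⟨a, b, c, d, -, hcd, e1, e2⟩
  apply hcd
  rw [← h5 a c, ← h5 b d, e1, e2]

end Pool.Agent.Results.MP_b1d8d5_co.OrderTwelve
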